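import Mathlib

set_option autoImplicit false

namespace Pool.Agent.Results.MP_6d14ae_al.Counter

/-- A cycle set structure: bijective left multiplications and the cycle set identity. -/
def IsCycleSet {X : Type} (op : X → X → X) : Prop :=
  (∀ x, Function.Bijective (op x)) ∧
    ∀ x y z, op (op x y) (op x z) = op (op y x) (op y z)

/-- Decomposability: a partition into nonempty `Y`, `Z` with `Y·Z ⊆ Z` and `Z·Y ⊆ Y`. -/
def Decomposable {X : Type} (op : X → X → X) : Prop :=
  ∃ Y Z : Set X, Y.Nonempty ∧ Z.Nonempty ∧ Disjoint Y Z ∧ Y ∪ Z = Set.univ ∧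
    (∀ y ∈ Y, ∀ z ∈ Z, op y z ∈ Z) ∧ (∀ z ∈ Z, ∀ y ∈ Y, op z y ∈ Y)

def tab : ℕ := 184242151375299159710083556107448528224918834622176109985641140596642286679653341785492239829052267350259727343553737756968514068192308353742657612636893270613039888190420693747125122982200670545835564567966887945894791685918560146297318106960245069051936693145875387231728213974985019790008301601009028694034507377188266131721863769495630584678532099855163004516283961495078275194786915839243207685065811223509687195049982302272659070399100232131047098666501898996731067282959292027764316495559448242415783521002741459052077313018033833495553876445034963000170756462100230821325831082586708696461614445436005416286814802335327222979735634180888718890050338712152843870360396637603684520737331058472449865321242825003623167505190204332791818870965594056018597841829860026746754424159541422013449365144082130461147983844921901287979184232188182704804982271513408459138731122797924522848238380938760161707780187309795783341437677255738628118748439140025897266933317099143277477707996376450416788248277237510053219326983761740942579121553702389517489915985341870073644670861049523981863428944806282228392072502941484508933737592080021670418083267343080106927355889534505207634805261145577525905561971458254987442163295123214773317478942327059442200868323660594747951314708221704553634548226850542301634821404800574633312874375492375898599342791528102619580412988615445217067178254074223833963095393575280633083016345597878487060377302395557513813289101214668075384923676771643004480349937646040228064943360236324194197336532722418859586323947040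

def opn (x y : ℕ) : ℕ := (tab >>> (5 * (32 * x + y))) % 32

def op (x y : Fin 32) : Fin 32 := ⟨opn x.val y.val, Nat.mod_lt _ (by norm_num)⟩

lemma ident : ∀ x < 32, ∀ y < 32, ∀ z < 32,
    opn (opn x y) (opn x z) = opn (opn y x) (opn y z) := by
  decide +kernel

lemma inj : ∀ x y z : Fin 32, op x y = op x z → y = z := by
  decide +kernel

lemma bij (x : Fin 32) : Function.Bijective (op x) :=
  Finite.injective_iff_bijective.mp (inj x)

/-- Every point is reached from every point by at most three left multiplications. -/
lemma reach : ∀ y : Fin 32, ∃ a b c : Fin 32, op a (op b (op c 0)) = y ∨ op a (op b 0) = y := by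
  decide +kernel

lemma stable {Y Z : Set (Fin 32)} (hd : Disjoint Y Z) (hu : Y ∪ Z = Set.univ)
    (h1 : ∀ y ∈ Y, ∀ z ∈ Z, op y z ∈ Z) (h2 : ∀ z ∈ Z, ∀ y ∈ Y, op z y ∈ Y) (a y : Fin 32)
    (hy : y ∈ Y) : op a y ∈ Y := by
  have ha : a ∈ Y ∪ Z := hu ▸ Set.mem_univ a
  rcases ha with ha | ha
  · have hm : Set.MapsTo (op a) Z Z := fun z hz => h1 a ha z hz
    have hs := ((Set.toFinite Z).injOn_iff_bijOn_of_mapsTo hm).mp (bij a).1.injOn
    have hb : op a y ∈ Y ∪ Z := hu ▸ Set.mem_univ _
    refine hb.resolve_right fun h => ?_
    obtain ⟨z, hz, e⟩ := hs.surjOn h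
    exact Set.disjoint_left.mp hd hy ((bij a).1 e ▸ hz)
  · exact h2 a ha y hy

lemma all_mem {Y Z : Set (Fin 32)} (hd : Disjoint Y Z) (hu : Y ∪ Z = Set.univ)
    (h1 : ∀ y ∈ Y, ∀ z ∈ Z, op y z ∈ Z) (h2 : ∀ z ∈ Z, ∀ y ∈ Y, op z y ∈ Y) (h0 : 0 ∈ Y)
    (y : Fin 32) : y ∈ Y := by
  have s := stable hd hu h1 h2
  obtain ⟨a, b, c, h | h⟩ := reach y
  · exact h ▸ s _ _ (s _ _ (s _ _ h0))
  · exact h ▸ s _ _ (s _ _ h0)

/-- There is an indecomposable cycle set with 32 elements in which some left multiplication has
a cycle of length 3. -/
theorem result :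
    ∃ (X : Type) (_ : Fintype X) (op : X → X → X), IsCycleSet op ∧ ¬ Decomposable op ∧
      ∃ (x y : X) (k : ℕ), 2 ≤ k ∧ Function.minimalPeriod (op x) y = k ∧
        Nat.Coprime k (Fintype.card X) := by
  refine ⟨Fin 32, inferInstance, op, ⟨bij, fun x y z => Fin.ext (ident _ x.2 _ y.2 _ z.2)⟩, ?_,
    0, 2, 3, by norm_num, ?_, by simp only [Fintype.card_fin]; norm_num⟩
  · rintro ⟨Y, Z, ⟨y, hy⟩, ⟨z, hz⟩, hd, hu, h1, h2⟩
    have h0 : (0 : Fin 32) ∈ Y ∪ Z := hu ▸ Set.mem_univ _
    rcases h0 with h0 | h0
    · exact Set.disjoint_left.mp hd (all_mem hd hu h1 h2 h0 z) hz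
    · exact Set.disjoint_left.mp hd hy
        (all_mem hd.symm (by rw [Set.union_comm, hu]) h2 h1 h0 y)
  · haveI : Fact (Nat.Prime 3) := ⟨by norm_num⟩
    exact Function.minimalPeriod_eq_prime (by unfold Function.IsPeriodicPt Function.IsFixedPt; decide +kernel)
      (by unfold Function.IsFixedPt; decide +kernel)

end Pool.Agent.Results.MP_6d14ae_al.Counter
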